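import Pool.Agent.helper54.MZ.Spec1

/-!
# Project mz:, module E1C: gluing of two different cylinders.
-/

set_option autoImplicit false

open Complex Metric Set Filter Topology MeasureTheory

noncomputable section

namespace MZS

open MPS

/-- Two holomorphic functions on a ball centred on the imaginary axis which agree on its left half agree. -/
lemma E1C_id (f g : ℂ → ℂ) (y r : ℝ) (hr : 0 < r)
    (hf : DifferentiableOn ℂ f (ball ((y : ℂ) * I) r)) (hg : DifferentiableOn ℂ g (ball ((y : ℂ) * I) r))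
    (h : ∀ v ∈ ball ((y : ℂ) * I) r, v.re < 0 → f v = g v) :
    ∀ v ∈ ball ((y : ℂ) * I) r, f v = g v := by
  have hfa : AnalyticOnNhd ℂ f (ball ((y : ℂ) * I) r) := hf.analyticOnNhd isOpen_ball
  have hga : AnalyticOnNhd ℂ g (ball ((y : ℂ) * I) r) := hg.analyticOnNhd isOpen_ball
  have hpc : IsPreconnected (ball ((y : ℂ) * I) r) := (convex_ball _ _).isPreconnected
  set v₀ : ℂ := (y : ℂ) * I - ((r / 2 : ℝ) : ℂ) with hv₀
  have hv₀b : v₀ ∈ ball ((y : ℂ) * I) r := by
    rw [mem_ball, dist_eq_norm, hv₀]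
    have : (y : ℂ) * I - ((r / 2 : ℝ) : ℂ) - (y : ℂ) * I = ((-(r / 2) : ℝ) : ℂ) := by
      push_cast; ring
    rw [this, Complex.norm_real, Real.norm_eq_abs, abs_neg, abs_of_pos (by linarith)]
    linarith
  have hv₀re : v₀.re < 0 := by
    rw [hv₀]
    simp
    linarith
  have hev : f =ᶠ[𝓝 v₀] g := by
    have h1 : ∀ᶠ v in 𝓝 v₀, v ∈ ball ((y : ℂ) * I) r := isOpen_ball.mem_nhds hv₀b
    have h2 : ∀ᶠ v in 𝓝 v₀, v.re < 0 :=
      (isOpen_lt Complex.continuous_re continuous_const).mem_nhds hv₀re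
    filter_upwards [h1, h2] with v hv1 hv2
    exact h v hv1 hv2
  exact fun v hv => hfa.eqOn_of_preconnected_of_eventuallyEq hga hpc hv₀b hev hv

theorem E1C (hLGE : LGE_stmt) (hMXE : MXE_stmt) (hCHN : CHN_stmt) (hNI : NI_stmt) : E1C_stmt := by
  intro n k _ c b g ψ R ε ρ₁ i l S p y X w₁ hST hil hS1 hS5 hFX hMP hGlu hw₁ hp
  have hr0 : 0 < ρ₁ := hST.r0
  have hpn : ∀ j, PN b g j (ψ j) 1 := fun j => (hST.su.mx j).pn
  obtain ⟨N, hN⟩ := hLGE k b g ψ hST.su.cyc.inj hpn i
  have hM : ∀ s : ℕ, ∃ M : ℂ → ℂ, s ≤ S →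
      MX b i N (y - s * (rho n b).arg) (16 * ρ₁) (X s) M := by
    intro s
    by_cases hs : s ≤ S
    · obtain ⟨M, hM⟩ := (hMXE k b g ψ i N (y - s * (rho n b).arg) (16 * ρ₁) (X s) hN
        (by linarith) (hFX s hs)).1
      exact ⟨M, fun _ => hM⟩
    · exact ⟨fun _ => 0, fun h => absurd h hs⟩
  choose M hM using hM
  obtain ⟨w, m, d, hw0, hch, hmd, -⟩ := hCHN n k c b g ψ R ε ρ₁ i l S y X w₁ N M hST hS5 hFX hMP hGlu
    hw₁ hN hM
  have hee : ee i l = 0 := by
    unfold ee
    rw [if_neg (fun h => hil h.symm)]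
  -- m S = m 0 + S d
  have hmS : ∀ s ≤ S, m s = m 0 + s * d := by
    intro s
    induction s with
    | zero => intro _; simp
    | succ s ih =>
      intro hs
      rw [hmd s (by omega), ih (by omega)]
      push_cast
      ring
  obtain ⟨hG0, hr0', -, hMM0⟩ := hch 0 (Nat.zero_le _)
  obtain ⟨hGS, hrS, -, hMMS⟩ := hch S le_rfl
  have hFX0 := hFX 0 (Nat.zero_le _)
  have hFXS := hFX S le_rfl
  have hM0 := hM 0 (Nat.zero_le _)
  have hMS := hM S le_rfl
  have e0 : y - ((0 : ℕ) : ℝ) * (rho n b).arg = y := by simp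
  rw [e0] at hG0 hMM0 hFX0 hM0
  set yS : ℝ := y - S * (rho n b).arg with hyS
  set T : ℂ := 2 * Real.pi * I * p with hT
  have hTre : T.re = 0 := by
    rw [hT]
    simp
  have hexpT : Complex.exp T = 1 := by
    rw [hT, Complex.exp_eq_one_iff]
    exact ⟨p, by ring⟩
  have hshift : ∀ v ∈ ball ((yS : ℂ) * I) (15 * ρ₁), v + T ∈ ball ((y : ℂ) * I) (16 * ρ₁) := by
    intro v hv
    rw [mem_ball, dist_eq_norm] at hv ⊢
    have h1 : v + T - (y : ℂ) * I = (v - (yS : ℂ) * I) +
        ((-(S * (rho n b).arg - 2 * Real.pi * p) : ℝ) : ℂ) * I := by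
      rw [hT, hyS]
      push_cast
      ring
    rw [h1]
    have h2 : ‖((-(S * (rho n b).arg - 2 * Real.pi * p) : ℝ) : ℂ) * I‖ ≤ ρ₁ := by
      rw [norm_mul, Complex.norm_I, mul_one, Complex.norm_real, Real.norm_eq_abs, abs_neg]
      exact hp
    calc _ ≤ ‖v - (yS : ℂ) * I‖ + ‖((-(S * (rho n b).arg - 2 * Real.pi * p) : ℝ) : ℂ) * I‖ :=
          norm_add_le _ _
      _ < 15 * ρ₁ + ρ₁ := by linarith
      _ = 16 * ρ₁ := by ring
  have hsub : ball ((yS : ℂ) * I) (15 * ρ₁) ⊆ ball ((yS : ℂ) * I) (16 * ρ₁) :=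
    ball_subset_ball (by linarith)
  have hdsh : DifferentiableOn ℂ (fun v : ℂ => v + T) (ball ((yS : ℂ) * I) (15 * ρ₁)) :=
    (differentiable_id.add_const T).differentiableOn
  -- the maps X
  have hX : ∀ v ∈ ball ((yS : ℂ) * I) (15 * ρ₁), X S v = X 0 (v + T) := by
    refine E1C_id (X S) (fun v => X 0 (v + T)) yS (15 * ρ₁) (by linarith) ?_ ?_ ?_
    · exact hFXS.nat.diff.mono (hsub.trans subset_union_right)
    · exact (hFX0.nat.diff.mono subset_union_right).comp hdsh hshift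
    · intro v hv hvre
      have h1 : v ∈ HP 0 := by
        show v.re < -0
        linarith
      have h2 : v + T ∈ HP 0 := by
        show (v + T).re < -0
        rw [Complex.add_re, hTre]
        linarith
      show X S v = X 0 (v + T)
      rw [hFXS.ext h1, hFX0.ext h2]
      unfold hat
      rw [Complex.exp_add, hexpT, mul_one]
  -- the maps M
  have hMeq : ∀ v ∈ ball ((yS : ℂ) * I) (15 * ρ₁), M S v = M 0 (v + T) - T := by
    refine E1C_id (M S) (fun v => M 0 (v + T) - T) yS (15 * ρ₁) (by linarith) ?_ ?_ ?_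
    · exact hMS.diff.mono (hsub.trans subset_union_right)
    · exact ((hM0.diff.mono subset_union_right).comp hdsh hshift).sub_const T
    · intro v hv hvre
      have h1 : v ∈ HP 0 := by
        show v.re < -0
        linarith
      have h2 : v + T ∈ HP 0 := by
        show (v + T).re < -0
        rw [Complex.add_re, hTre]
        linarith
      show M S v = M 0 (v + T) - T
      rw [hMS.left v h1, hM0.left (v + T) h2, Complex.exp_add, hexpT, mul_one]
      ring
  -- the test point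
  set v : ℂ := (yS : ℂ) * I + ((2 * ρ₁ : ℝ) : ℂ) with hv
  have hvre : v.re = 2 * ρ₁ := by
    rw [hv]
    simp
  have hvb : v ∈ ball ((yS : ℂ) * I) (15 * ρ₁) := by
    rw [mem_ball, dist_eq_norm, hv, add_sub_cancel_left, Complex.norm_real, Real.norm_eq_abs,
      abs_of_pos (by linarith)]
    linarith
  have hwS : (w S).re < v.re := by
    rw [hvre]
    have := (abs_le.mp hrS).2
    linarith
  have hw0' : (w 0).re < (v + T).re := by
    rw [Complex.add_re, hTre, hvre]
    have := (abs_le.mp hr0').2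
    linarith
  have hXS := hGS.gl v (hsub hvb) hwS
  have hX0 := hG0.gl (v + T) (hshift v hvb) hw0'
  have hE : Complex.exp (w 0 - (v + T)) = Complex.exp (w 0 - v) := by
    have : w 0 - (v + T) = (w 0 - v) - T := by ring
    rw [this, Complex.exp_sub, hexpT, div_one]
  have hmemS : Complex.exp (w S - v) ∈ ball (0 : ℂ) 1 := by
    rw [mem_ball_zero_iff, Complex.norm_exp]
    rw [Real.exp_lt_one_iff, Complex.sub_re]
    linarith
  have hmem0 : Complex.exp (w 0 - v) ∈ ball (0 : ℂ) 1 := by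
    rw [mem_ball_zero_iff, Complex.norm_exp]
    rw [Real.exp_lt_one_iff, Complex.sub_re]
    rw [Complex.add_re, hTre] at hw0'
    linarith
  have hEE : Complex.exp (w S - v) = Complex.exp (w 0 - v) := by
    refine hNI k b g l (ψ l) 1 (hpn l) hmemS hmem0 ?_
    have h1 := hX v hvb
    rw [hXS, hX0] at h1
    unfold hat at h1
    rw [hE] at h1
    exact h1
  have hA := hMMS v (hsub hvb) hwS
  have hB := hMM0 (v + T) (hshift v hvb) hw0'
  have hC := hMeq v hvb
  rw [hA, hB, hee, hE, hEE] at hC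
  have hD : (2 * Real.pi * I) * ((m S : ℂ)) = (2 * Real.pi * I) * ((m 0 : ℂ) - (p : ℂ)) := by
    rw [hT] at hC
    linear_combination hC
  have hne : (2 * (Real.pi : ℂ) * I) ≠ 0 := Complex.two_pi_I_ne_zero
  have hF : (m S : ℂ) = (m 0 : ℂ) - (p : ℂ) := mul_left_cancel₀ hne hD
  have hG : m S = m 0 - p := by
    exact_mod_cast hF
  have hH := hmS S le_rfl
  refine ⟨-d, ?_⟩
  rw [hG] at hH
  linarith

end MZS
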